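import Pool.Agent.Lib.MP_06b617_an.Cone

set_option autoImplicit false

namespace Pool.Agent.Lib.MP_06b617_an.Variants.Separable

/-- Q1: in a separable real Banach space ordered by a closed cone `K` (`x ≤ y` iff `y - x ∈ K`) in which every
order bounded increasing sequence has a supremum, every such sequence converges in norm. -/
theorem result {X : Type*} [NormedAddCommGroup X] [NormedSpace ℝ X] [CompleteSpace X]
    [TopologicalSpace.SeparableSpace X] (K : Set X) (hclosed : IsClosed K)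
    (hadd : ∀ x ∈ K, ∀ y ∈ K, x + y ∈ K) (hsmul : ∀ t : ℝ, 0 ≤ t → ∀ x ∈ K, t • x ∈ K)
    (hpointed : K ∩ (-K) = {0})
    (hS : ∀ x : ℕ → X, (∀ n, x (n + 1) - x n ∈ K) → (∃ v, ∀ n, v - x n ∈ K) →
      ∃ s, (∀ n, s - x n ∈ K) ∧ ∀ v, (∀ n, v - x n ∈ K) → v - s ∈ K)
    (x : ℕ → X) (hx : ∀ n, x (n + 1) - x n ∈ K) (hb : ∃ v, ∀ n, v - x n ∈ K) :
    ∃ l, Filter.Tendsto x Filter.atTop (nhds l) :=
  (Pool.Agent.Lib.MP_06b617_an.cone_results K hclosed hadd hsmul hpointed hS).2 inferInstance x hx hb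

end Pool.Agent.Lib.MP_06b617_an.Variants.Separable
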